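import Mathlib
import Pool.Agent.Helper69.Top

set_option autoImplicit false

namespace Pool.Agent.Results.MP_06a8b9_al.NoSeparableQuotient

open TopologicalSpace Pool.Agent.Helper69
open scoped Pointwise

theorem closure_countable {G : Type} [Group G] (S : Set G) (hS : S.Countable) :
    (Subgroup.closure S : Set G).Countable := by
  have : Countable S := hS.to_subtype
  have h2 : Countable (FreeGroup S) := inferInstance
  rw [FreeGroup.closure_eq_range]
  exact Set.countable_range _

/-- Closed subgroups of the constructed group with separable quotient are everything. -/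
theorem quotient_trivial (N : Subgroup Top.G) (hN : IsClosed (N : Set Top.G))
    (hsep : SeparableSpace (Top.G ⧸ N)) : N = ⊤ := by
  by_cases hc : (N : Set Top.G).Countable
  · exfalso
    obtain ⟨D, hDc, hDd⟩ := hsep.exists_countable_dense
    have hpre : Dense ((QuotientGroup.mk : Top.G → Top.G ⧸ N) ⁻¹' D) :=
      hDd.preimage QuotientGroup.isOpenMap_coe
    let S : Subgroup Top.G := N ⊔ Subgroup.closure (Quotient.out '' D)
    have hsub : (QuotientGroup.mk : Top.G → Top.G ⧸ N) ⁻¹' D ⊆ (S : Set Top.G) := by
      intro x hx
      have hx' : (QuotientGroup.mk x : Top.G ⧸ N) ∈ D := hx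
      have h1 : (Quotient.out (QuotientGroup.mk x : Top.G ⧸ N)) ∈ S :=
        (le_sup_right : Subgroup.closure (Quotient.out '' D) ≤ S)
          (Subgroup.subset_closure ⟨_, hx', rfl⟩)
      have h2 : (QuotientGroup.mk (Quotient.out (QuotientGroup.mk x : Top.G ⧸ N)) : Top.G ⧸ N) =
          QuotientGroup.mk x := Quotient.out_eq _
      have h3 := QuotientGroup.eq.1 h2
      have h4 : (Quotient.out (QuotientGroup.mk x : Top.G ⧸ N))⁻¹ * x ∈ S :=
        (le_sup_left : N ≤ S) h3
      have h5 := S.mul_mem h1 h4
      rwa [mul_inv_cancel_left] at h5
    have hSc : (S : Set Top.G).Countable := by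
      have h1 : (Subgroup.closure (Quotient.out '' D : Set Top.G) : Set Top.G).Countable :=
        closure_countable _ (hDc.image _)
      have h2 : (S : Set Top.G) = (N : Set Top.G) *
          (Subgroup.closure (Quotient.out '' D : Set Top.G) : Set Top.G) :=
        Subgroup.mul_normal _ _
      rw [h2]
      exact hc.image2 h1 _
    have hScl := Top.countable_closed S hSc
    have hSd : Dense (S : Set Top.G) := hpre.mono hsub
    have hStop : (S : Set Top.G) = Set.univ := by
      rw [← hScl.closure_eq]; exact hSd.closure_eq
    apply Top.G_uncountable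
    have h1 : (Set.univ : Set Top.G).Countable := by rw [← hStop]; exact hSc
    refine (h1.image Subtype.val).mono ?_
    intro x hx
    exact ⟨⟨x, hx⟩, trivial, rfl⟩
  · have hd := Top.uncountable_dense N hc
    have h1 : (N : Set Top.G) = Set.univ := by
      rw [← hN.closure_eq]; exact hd.closure_eq
    exact SetLike.coe_injective (by rw [h1]; rfl)

/-- Pontryagin reflexivity: the evaluation map into the double dual is an isomorphism of
topological groups. -/
def IsReflexive (G : Type) [CommGroup G] [TopologicalSpace G] [IsTopologicalGroup G] : Prop :=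
  ∃ e : G ≃ₜ* PontryaginDual (PontryaginDual G),
    ∀ (g : G) (χ : PontryaginDual G), e g χ = χ g

/-- Every separable quotient by a closed subgroup is trivial. -/
def SeparableQuotientsTrivial (G : Type) [CommGroup G] [TopologicalSpace G] : Prop :=
  ∀ N : Subgroup G, IsClosed (N : Set G) → SeparableSpace (G ⧸ N) → N = ⊤

/-- There is an infinite dense subgroup of the torus power (with the subspace topology) that is
reflexive and all of whose separable quotient groups are trivial. -/
theorem result :
    ∃ G : Subgroup (ℝ → Circle),
      Dense (G : Set (ℝ → Circle)) ∧ Infinite G ∧ IsReflexive G ∧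
        SeparableQuotientsTrivial G := by
  refine ⟨Top.G, Top.G_dense, ?_, Top.reflexive, quotient_trivial⟩
  rw [← not_finite_iff_infinite]
  intro h
  exact Top.G_uncountable (Set.countable_coe_iff.1 (Finite.to_countable (α := Top.G)))

end Pool.Agent.Results.MP_06a8b9_al.NoSeparableQuotient
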